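import Mathlib

open Filter Topology Complex

namespace Pool.Agent.Results.MP_a70c31_an.ThetaLowerBound

/-- The maximum term of the power series with coefficients `a`. -/
noncomputable def maxTerm (a : ℕ → ℂ) (r : ℝ) : ℝ := ⨆ n : ℕ, ‖a n‖ * r ^ n

/-- The maximum modulus on the circle `|z| = r` of the sum of the power series. -/
noncomputable def maxModulus (a : ℕ → ℂ) (r : ℝ) : ℝ :=
  sSup ((fun z : ℂ => ‖∑' n : ℕ, a n * z ^ n‖) '' Metric.sphere (0 : ℂ) r)

/-- `a` is the coefficient sequence of a transcendental entire function. -/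
structure IsTranscendentalEntire (a : ℕ → ℂ) : Prop where
  summable : ∀ z : ℂ, Summable fun n : ℕ => a n * z ^ n
  infinite : ∀ N : ℕ, ∃ n, N ≤ n ∧ a n ≠ 0

/-- the parameter -/
noncomputable def u : ℂ := ((-76 / 400 : ℝ) : ℂ) + ((81 / 400 : ℝ) : ℂ) * I

/-- the coefficients -/
noncomputable def co (n : ℕ) : ℂ := u ^ (n.choose 2)

/-- the sum -/
noncomputable def f (z : ℂ) : ℂ := ∑' n : ℕ, co n * z ^ n

/-- core polynomial -/
noncomputable def core (w : ℂ) : ℂ :=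
  u ^ 6 * (1 + w ^ 7) + u ^ 3 * (w + w ^ 6) + u * (w ^ 2 + w ^ 5) + (w ^ 3 + w ^ 4)



/-- remaining polynomial -/
noncomputable def G (R : ℝ) : ℝ := (624417972192508680225952896991/8388608000000000000000000000000 : ℝ) * R ^ 0 + (-4888325577379727400842342278937/8388608000000000000000000000000 : ℝ) * R ^ 1 + (11283833128526924040959/8192000000000000000000 : ℝ) * R ^ 2 + (-899881241840641963867545721063/1048576000000000000000000000000 : ℝ) * R ^ 3 + (11032679051207346347/1024000000000000000000 : ℝ) * R ^ 4 + (-10169779224596113572454278937/524288000000000000000000000000 : ℝ) * R ^ 5 + (-496153146389115449/512000000000000000000 : ℝ) * R ^ 6 + (-3525797686025923935103009/131072000000000000000000000000 : ℝ) * R ^ 7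

theorem piece0 (R : ℝ) (h1 : (-1 : ℝ) ≤ R) (h2 : R ≤ (0 : ℝ)) : 0 ≤ G R := by
  have e1 : 0 ≤ R - (-1 : ℝ) := by linarith
  have e2 : 0 ≤ (0 : ℝ) - R := by linarith
  have h : G R = (29220141721/10000000000 : ℝ) * ((R - (-1 : ℝ)) ^ 0 * ((0 : ℝ) - R) ^ 7) + (120858747708983427210733259952559/8388608000000000000000000000000 : ℝ) * ((R - (-1 : ℝ)) ^ 1 * ((0 : ℝ) - R) ^ 6) + (122806133754580559651712820047441/4194304000000000000000000000000 : ℝ) * ((R - (-1 : ℝ)) ^ 2 * ((0 : ℝ) - R) ^ 5) + (264054171256136087429211444047441/8388608000000000000000000000000 : ℝ) * ((R - (-1 : ℝ)) ^ 3 * ((0 : ℝ) - R) ^ 4) + (40037947060054175405298482836811/2097152000000000000000000000000 : ℝ) * ((R - (-1 : ℝ)) ^ 4 * ((0 : ℝ) - R) ^ 3) + (53997376003932616907741080510433/8388608000000000000000000000000 : ℝ) * ((R - (-1 : ℝ)) ^ 5 * ((0 : ℝ) - R) ^ 2) + (4629625691363644081212006278937/4194304000000000000000000000000 : ℝ) * ((R - (-1 : ℝ)) ^ 6 *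 ((0 : ℝ) - R) ^ 1) + (624417972192508680225952896991/8388608000000000000000000000000 : ℝ) * ((R - (-1 : ℝ)) ^ 7 * ((0 : ℝ) - R) ^ 0) := by
    unfold G; ring
  rw [h]; positivity

theorem piece1 (R : ℝ) (h1 : (0 : ℝ) ≤ R) (h2 : R ≤ (1/4 : ℝ)) : 0 ≤ G R := by
  have e1 : 0 ≤ R - (0 : ℝ) := by linarith
  have e2 : 0 ≤ (1/4 : ℝ) - R := by linarith
  have h : G R = (624417972192508680225952896991/512000000000000000000000000 : ℝ) * ((R - (0 : ℝ)) ^ 0 * ((1/4 : ℝ) - R) ^ 7) + (12595377644010515645484338836811/2048000000000000000000000000 : ℝ) * ((R - (0 : ℝ)) ^ 1 * ((1/4 : ℝ) - R) ^ 6) + (13004908740397628644205746836811/1024000000000000000000000000 : ℝ) * ((R - (0 : ℝ)) ^ 2 * ((1/4 : ℝ) - R) ^ 5) + (56173996459698892018984037068307/4096000000000000000000000000 : ℝ) * ((R - (0 : ℝ)) ^ 3 * ((1/4 : ℝ) - R) ^ 4) + (8370133533811431686119462278937/1024000000000000000000000000 : ℝ) * ((R - (0 : ℝ)) ^ 4 * ((1/4 : ℝ) - R) ^ 3) + (85068736392575106295940505721063/32768000000000000000000000000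 : ℝ) * ((R - (0 : ℝ)) ^ 5 * ((1/4 : ℝ) - R) ^ 2) + (6402008526778434935348505721063/16384000000000000000000000000 : ℝ) * ((R - (0 : ℝ)) ^ 6 * ((1/4 : ℝ) - R) ^ 1) + (625095034226753354817184896991/26214400000000000000000000000 : ℝ) * ((R - (0 : ℝ)) ^ 7 * ((1/4 : ℝ) - R) ^ 0) := by
    unfold G; ring
  rw [h]; positivity

theorem piece2 (R : ℝ) (h1 : (1/4 : ℝ) ≤ R) (h2 : R ≤ (3/8 : ℝ)) : 0 ≤ G R := by
  have e1 : 0 ≤ R - (1/4 : ℝ) := by linarith
  have e2 : 0 ≤ (3/8 : ℝ) - R := by linarith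
  have h : G R = (625095034226753354817184896991/204800000000000000000000000 : ℝ) * ((R - (1/4 : ℝ)) ^ 0 * ((3/8 : ℝ) - R) ^ 7) + (14418910379581622773016368415551/2048000000000000000000000000 : ℝ) * ((R - (1/4 : ℝ)) ^ 1 * ((3/8 : ℝ) - R) ^ 6) + (364021002339508591832677068307/163840000000000000000000000 : ℝ) * ((R - (1/4 : ℝ)) ^ 2 * ((3/8 : ℝ) - R) ^ 5) + (72151919027342993267951631094279/8192000000000000000000000000 : ℝ) * ((R - (1/4 : ℝ)) ^ 3 * ((3/8 : ℝ) - R) ^ 4) + (769833154584433625094628385176537/16384000000000000000000000000 : ℝ) * ((R - (1/4 : ℝ)) ^ 4 * ((3/8 : ℝ) - R) ^ 3) + (2255131897908107696740087025289109/32768000000000000000000000000 : ℝ) * ((R - (1/4 : ℝ)) ^ 5 * ((3/8 : ℝ) - R) ^ 2) + (2731566524285524239726866782245809/65536000000000000000000000000 : ℝ) * ((R - (1/4 : ℝ)) ^ 6 * ((3/8 : ℝ) - R) ^ 1) + (1215307345134306278013354922260581/131072000000000000000000000000 : ℝ) * ((R - (1/4 : ℝ)) ^ 7 * ((3/8 :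 ℝ) - R) ^ 0) := by
    unfold G; ring
  rw [h]; positivity

theorem piece3 (R : ℝ) (h1 : (3/8 : ℝ) ≤ R) (h2 : R ≤ (1/2 : ℝ)) : 0 ≤ G R := by
  have e1 : 0 ≤ R - (3/8 : ℝ) := by linarith
  have e2 : 0 ≤ (1/2 : ℝ) - R := by linarith
  have h : G R = (1215307345134306278013354922260581/131072000000000000000000000000 : ℝ) * ((R - (3/8 : ℝ)) ^ 0 * ((1/2 : ℝ) - R) ^ 7) + (2887792445827309853183308836789129/32768000000000000000000000000 : ℝ) * ((R - (3/8 : ℝ)) ^ 1 * ((1/2 : ℝ) - R) ^ 6) + (1423398375001924262082417462410807/4096000000000000000000000000 : ℝ) * ((R - (3/8 : ℝ)) ^ 2 * ((1/2 : ℝ) - R) ^ 5) + (94281918362296570259142400677361/128000000000000000000000000 : ℝ) * ((R - (3/8 : ℝ)) ^ 3 * ((1/2 : ℝ) - R) ^ 4) + (465535304610057524763774686092711/512000000000000000000000000 : ℝ) * ((R - (3/8 : ℝ)) ^ 4 * ((1/2 : ℝ) - R) ^ 3) + (83988489597987022631830923193503/128000000000000000000000000 : ℝ) * ((R - (3/8 : ℝ)) ^ 5 * ((1/2 :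 ℝ) - R) ^ 2) + (8230511855850588500616293068307/32000000000000000000000000 : ℝ) * ((R - (3/8 : ℝ)) ^ 6 * ((1/2 : ℝ) - R) ^ 1) + (338940573044994096898530690973/8000000000000000000000000 : ℝ) * ((R - (3/8 : ℝ)) ^ 7 * ((1/2 : ℝ) - R) ^ 0) := by
    unfold G; ring
  rw [h]; positivity

theorem piece4 (R : ℝ) (h1 : (1/2 : ℝ) ≤ R) (h2 : R ≤ (1 : ℝ)) : 0 ≤ G R := by
  have e1 : 0 ≤ R - (1/2 : ℝ) := by linarith
  have e2 : 0 ≤ (1 : ℝ) - R := by linarith
  have h : G R = (338940573044994096898530690973/131072000000000000000000000000 : ℝ) * ((R - (1/2 : ℝ)) ^ 0 * ((1 : ℝ) - R) ^ 7) + (908102050181051222708070278937/32768000000000000000000000000 : ℝ) * ((R - (1/2 : ℝ)) ^ 1 * ((1 : ℝ) - R) ^ 6) + (7508467385545634242535371952559/65536000000000000000000000000 : ℝ) * ((R - (1/2 : ℝ)) ^ 2 * ((1 : ℝ) - R) ^ 5) + (15299998233748263615980133068307/65536000000000000000000000000 : ℝ) * ((R - (1/2 : ℝ)) ^ 3 * ((1 : ℝ) - R) ^ 4) + (32972396825124904943141681626181/131072000000000000000000000000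 : ℝ) * ((R - (1/2 : ℝ)) ^ 4 * ((1 : ℝ) - R) ^ 3) + (9053210200474164470060697721063/65536000000000000000000000000 : ℝ) * ((R - (1/2 : ℝ)) ^ 5 * ((1 : ℝ) - R) ^ 2) + (4032548823087226811431629163189/131072000000000000000000000000 : ℝ) * ((R - (1/2 : ℝ)) ^ 6 * ((1 : ℝ) - R) ^ 1) + (5498099345411811926176896991/32768000000000000000000000000 : ℝ) * ((R - (1/2 : ℝ)) ^ 7 * ((1 : ℝ) - R) ^ 0) := by
    unfold G; ring
  rw [h]; positivity

theorem Gpos (R : ℝ) (h1 : -1 ≤ R) (h2 : R ≤ 1) : 0 ≤ G R := by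
  rcases le_total R (0 : ℝ) with h | h
  · exact piece0 R (by linarith) h
  rcases le_total R (1/4 : ℝ) with h | h
  · exact piece1 R (by linarith) h
  rcases le_total R (3/8 : ℝ) with h | h
  · exact piece2 R (by linarith) h
  rcases le_total R (1/2 : ℝ) with h | h
  · exact piece3 R (by linarith) h
  exact piece4 R (by linarith) (by linarith)

/-- real part -/
noncomputable def A (R : ℝ) : ℝ := (961390570349699/819200000000000 : ℝ) * R ^ 0 + (-84659664749699/204800000000000 : ℝ) * R ^ 1 + (13457429650301/204800000000000 : ℝ) * R ^ 2 + (71299949699/102400000000000 : ℝ) * R ^ 3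
/-- imaginary part -/
noncomputable def B (R : ℝ) : ℝ := (-110426571266409/512000000000000 : ℝ) * R ^ 0 + (48121047266409/128000000000000 : ℝ) * R ^ 1 + (6746571266409/128000000000000 : ℝ) * R ^ 2 + (230444733591/64000000000000 : ℝ) * R ^ 3

theorem GA (R : ℝ) : 2 * (1 + R) * (A R ^ 2 + B R ^ 2) = (170939 / 100000 : ℝ) ^ 2 - G R := by
  unfold A B G; ring

theorem u3eq : u ^ 3 = (((264233/16000000 : ℝ) : ℝ) : ℂ) + (((872127/64000000 : ℝ) : ℝ) : ℂ) * I := by
  apply Complex.ext <;> simp [u, pow_succ] <;> norm_num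

theorem u6eq : u ^ 6 = (((71299949699/819200000000000 : ℝ) : ℝ) : ℂ) + (((230444733591/512000000000000 : ℝ) : ℝ) : ℂ) * I := by
  have : u ^ 6 = u ^ 3 * u ^ 3 := by ring
  rw [this, u3eq]
  apply Complex.ext <;> simp <;> norm_num

theorem J1 (R : ℝ) (h1 : -1 ≤ R) (h2 : R ≤ 1) :
    2 * (1 + R) * ‖(1 : ℂ) + u * (2 * R - 1) + u ^ 3 * (4 * R ^ 2 - 2 * R - 1)
      + u ^ 6 * (8 * R ^ 3 - 4 * R ^ 2 - 4 * R + 1)‖ ^ 2 ≤ (170939 / 100000 : ℝ) ^ 2 := by
  have e : (1 : ℂ) + u * (2 * R - 1) + u ^ 3 * (4 * R ^ 2 - 2 * R - 1)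
      + u ^ 6 * (8 * R ^ 3 - 4 * R ^ 2 - 4 * R + 1) = ((A R : ℝ) : ℂ) + ((B R : ℝ) : ℂ) * I := by
    rw [u3eq, u6eq, u, A, B]
    push_cast
    ring
  have e2 : ‖((A R : ℝ) : ℂ) + ((B R : ℝ) : ℂ) * I‖ ^ 2 = A R ^ 2 + B R ^ 2 := by
    rw [Complex.sq_norm, Complex.normSq_add_mul_I]
  rw [e, e2, GA]
  have := Gpos R h1 h2
  linarith

theorem J3 : ‖u‖ ^ 2 = 12337 / 160000 := by
  rw [Complex.sq_norm, u, Complex.normSq_add_mul_I]
  norm_num

theorem J2 (w : ℂ) (hw : ‖w‖ = 1) : ‖core w‖ ≤ 170939 / 100000 := by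
  have hre := Complex.abs_re_le_norm w
  rw [hw] at hre
  obtain ⟨h1, h2⟩ := abs_le.1 hre
  have key := J1 w.re h1 h2
  obtain ⟨R, hR⟩ : ∃ R : ℂ, R = (w.re : ℂ) := ⟨_, rfl⟩
  rw [← hR] at key
  obtain ⟨B, hB⟩ : ∃ B : ℂ, B = (1 : ℂ) + u * (2 * R - 1) + u ^ 3 * (4 * R ^ 2 - 2 * R - 1)
      + u ^ 6 * (8 * R ^ 3 - 4 * R ^ 2 - 4 * R + 1) := ⟨_, rfl⟩
  rw [← hB] at key
  have hc : w * (starRingEnd ℂ) w = 1 := by
    rw [Complex.mul_conj, Complex.normSq_eq_norm_sq, hw]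
    norm_num
  have hX : w * (2 * R) = w ^ 2 + 1 := by
    have h3 : 2 * R = w + (starRingEnd ℂ) w := by
      rw [Complex.add_conj, hR]
      push_cast
      ring
    rw [h3]
    linear_combination hc
  have e1 : w * (2 * R - 1) = w ^ 2 - w + 1 := by linear_combination hX
  have e2 : w ^ 2 * (4 * R ^ 2 - 2 * R - 1) = w ^ 4 - w ^ 3 + w ^ 2 - w + 1 := by
    linear_combination (w * (2 * R) + w ^ 2 + 1 - w) * hX
  have e3 : w ^ 3 * (8 * R ^ 3 - 4 * R ^ 2 - 4 * R + 1) =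
      w ^ 6 - w ^ 5 + w ^ 4 - w ^ 3 + w ^ 2 - w + 1 := by
    linear_combination ((w * (2 * R)) ^ 2 + w * (2 * R) * (w ^ 2 + 1) + (w ^ 2 + 1) ^ 2
      - w * (w * (2 * R) + w ^ 2 + 1) - 2 * w ^ 2) * hX
  have e4 : core w = (1 + w) * w ^ 3 * B := by
    unfold core
    rw [hB]
    linear_combination -(1 + w) * (u * w ^ 2 * e1 + u ^ 3 * w * e2 + u ^ 6 * e3)
  have e5 : ‖1 + w‖ ^ 2 = 2 * (1 + w.re) := by
    have h3 : w.re * w.re + w.im * w.im = 1 := by
      have := Complex.normSq_eq_norm_sq w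
      rw [hw, Complex.normSq_apply] at this
      linarith
    rw [← Complex.normSq_eq_norm_sq, Complex.normSq_apply]
    simp only [Complex.add_re, Complex.one_re, Complex.add_im, Complex.one_im]
    linarith
  have e6 : ‖core w‖ ^ 2 ≤ (170939 / 100000 : ℝ) ^ 2 := by
    rw [e4, norm_mul, norm_mul, norm_pow, hw, one_pow, mul_one, mul_pow, e5]
    exact key
  exact (pow_le_pow_iff_left₀ (norm_nonneg _) (by norm_num) two_ne_zero).1 e6

theorem J4_u : ‖u‖ < 1 := by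
  have h1 : ‖u‖ ^ 2 < 1 := by
    rw [← Complex.normSq_eq_norm_sq]
    have hre : u.re = -76 / 400 := by simp [u]
    have him : u.im = 81 / 400 := by simp [u]
    rw [Complex.normSq_apply, hre, him]
    norm_num
  have h2 : 0 ≤ ‖u‖ := norm_nonneg _
  nlinarith

theorem J4 (z : ℂ) : Summable fun n : ℕ => ‖co n * z ^ n‖ := by
  refine summable_of_ratio_norm_eventually_le (r := 1 / 2) (by norm_num) ?_
  have h1 : Tendsto (fun n : ℕ => ‖u‖ ^ n * ‖z‖) atTop (𝓝 (0 * ‖z‖)) :=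
    (tendsto_pow_atTop_nhds_zero_of_lt_one (norm_nonneg _) J4_u).mul_const _
  rw [zero_mul] at h1
  filter_upwards [h1.eventually (gt_mem_nhds (by norm_num : (0 : ℝ) < 1 / 2))] with n hn
  have hc : (n + 1).choose 2 = n + n.choose 2 := by
    rw [Nat.choose_succ_succ' n 1, Nat.choose_one_right]
  have h2 : ‖co (n + 1) * z ^ (n + 1)‖ = (‖u‖ ^ n * ‖z‖) * ‖co n * z ^ n‖ := by
    unfold co
    rw [hc, norm_mul, norm_mul, norm_pow, norm_pow, norm_pow, norm_pow, pow_add, pow_succ]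
    ring
  rw [norm_norm, norm_norm, h2]
  exact mul_le_mul_of_nonneg_right hn.le (norm_nonneg _)

theorem J5 : Differentiable ℂ f := by
  intro z
  obtain ⟨R, hR⟩ : ∃ R : ℝ, R = ‖z‖ + 1 := ⟨_, rfl⟩
  have hR0 : 0 ≤ R := by rw [hR]; positivity
  have hsum : Summable fun n : ℕ => ‖co n‖ * R ^ n := by
    have h := J4 (R : ℂ)
    have h2 : (fun n : ℕ => ‖co n * (R : ℂ) ^ n‖) = fun n : ℕ => ‖co n‖ * R ^ n := by
      funext n
      rw [norm_mul, norm_pow, Complex.norm_real, Real.norm_of_nonneg hR0]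
    rw [h2] at h
    exact h
  have hd : DifferentiableOn ℂ f (Metric.ball 0 R) := by
    apply Complex.differentiableOn_tsum_of_summable_norm hsum
    · intro n
      exact ((differentiable_const _).mul (differentiable_id.pow n)).differentiableOn
    · exact Metric.isOpen_ball
    · intro n w hw
      rw [mem_ball_zero_iff] at hw
      rw [norm_mul, norm_pow]
      exact mul_le_mul_of_nonneg_left (pow_le_pow_left₀ (norm_nonneg _) hw.le n) (norm_nonneg _)
  apply hd.differentiableAt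
  apply Metric.isOpen_ball.mem_nhds
  rw [mem_ball_zero_iff, hR]
  linarith

theorem tri (m : ℕ) : 2 * m.choose 2 + m = m * m := by
  induction m with
  | zero => rfl
  | succ m ih =>
    rw [Nat.choose_succ_succ' m 1, Nat.choose_one_right]
    nlinarith

/-- the exponents -/
def ee (K n : ℕ) : ℕ := if n ≤ K + 3 then (K + 3 - n + 1).choose 2 else (n - (K + 3)).choose 2

theorem ee_eq (K n : ℕ) : (K + 3 + 1).choose 2 + n.choose 2 = (K + 3) * n + ee K n := by
  unfold ee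
  split_ifs with h
  · obtain ⟨m, hm⟩ := Nat.exists_eq_add_of_le h
    have h1 : K + 3 - n + 1 = m + 1 := by omega
    rw [h1, hm]
    have t1 := tri (n + m + 1)
    have t2 := tri n
    have t3 := tri (m + 1)
    nlinarith
  · obtain ⟨m, hm⟩ := Nat.exists_eq_add_of_le (Nat.le_of_lt (not_le.1 h))
    have h1 : n - (K + 3) = m := by omega
    rw [h1, hm]
    have t1 := tri (K + 3 + 1)
    have t2 := tri (K + 3 + m)
    have t3 := tri m
    nlinarith

theorem r_le : ‖u‖ ≤ 1 := by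
  have h := J3
  nlinarith [norm_nonneg u]

theorem r_ten : ‖u‖ ^ 10 = (12337 / 160000) ^ 5 := by
  have h : ‖u‖ ^ 10 = (‖u‖ ^ 2) ^ 5 := by ring
  rw [h, J3]

theorem r_five : ‖u‖ ^ 5 ≤ 1 / 100 := by
  by_contra hcon
  push Not at hcon
  have h : ‖u‖ ^ 10 = ‖u‖ ^ 5 * ‖u‖ ^ 5 := by ring
  have h2 := r_ten
  rw [h] at h2
  have h3 : (1 / 100 : ℝ) * (1 / 100) < ‖u‖ ^ 5 * ‖u‖ ^ 5 :=
    mul_lt_mul'' hcon hcon (by norm_num) (by norm_num)
  rw [h2] at h3
  norm_num at h3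

theorem tail_bd (i : ℕ) : ‖u‖ ^ ((5 + i).choose 2) ≤ ‖u‖ ^ 10 * (1 / 100) ^ i := by
  have h1 : 10 + 5 * i ≤ (5 + i).choose 2 := by
    have t := tri (5 + i)
    have h2 := Nat.le_mul_self i
    nlinarith
  calc ‖u‖ ^ ((5 + i).choose 2) ≤ ‖u‖ ^ (10 + 5 * i) :=
        pow_le_pow_of_le_one (norm_nonneg _) r_le h1
    _ = ‖u‖ ^ 10 * (‖u‖ ^ 5) ^ i := by rw [pow_add, pow_mul]
    _ ≤ ‖u‖ ^ 10 * (1 / 100) ^ i := by
        apply mul_le_mul_of_nonneg_left _ (by positivity)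
        exact pow_le_pow_left₀ (by positivity) r_five i

theorem tail_hasSum : HasSum (fun i : ℕ => ‖u‖ ^ 10 * (1 / 100 : ℝ) ^ i)
    (‖u‖ ^ 10 * (1 - 1 / 100)⁻¹) :=
  (hasSum_geometric_of_lt_one (by norm_num) (by norm_num)).mul_left _

theorem tail_num : ‖u‖ ^ 10 * (1 - 1 / 100 : ℝ)⁻¹ ≤ 28 / 10 ^ 7 := by
  rw [r_ten]
  norm_num

theorem J6 (k : ℕ) (hk : 3 ≤ k) (z : ℂ) (hz : ‖z‖ = ‖u‖⁻¹ ^ k) :
    ‖f z‖ ≤ 200 / 117 * ‖u‖⁻¹ ^ ((k + 1).choose 2) := by
  obtain ⟨K, rfl⟩ := Nat.exists_eq_add_of_le' hk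
  have hr0 : 0 < ‖u‖ := by
    rcases (norm_nonneg u).lt_or_eq with h | h
    · exact h
    · exfalso
      have := J3
      rw [← h] at this
      norm_num at this
  set w : ℂ := z * u ^ (K + 3) with hw
  have hwn : ‖w‖ = 1 := by
    rw [hw, norm_mul, norm_pow, hz, inv_pow, inv_mul_cancel₀ (pow_ne_zero _ hr0.ne')]
  set T : ℕ → ℂ := fun n => u ^ (ee K n) * w ^ n with hTdef
  have hT : ∀ n, u ^ ((K + 3 + 1).choose 2) * (co n * z ^ n) = T n := by
    intro n
    rw [hTdef, co, hw]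
    simp only
    rw [← mul_assoc, ← pow_add, ee_eq, mul_pow, ← pow_mul, pow_add]
    ring
  have hTn : ∀ n, ‖T n‖ = ‖u‖ ^ (ee K n) := by
    intro n
    rw [hTdef]
    simp only
    rw [norm_mul, norm_pow, norm_pow, hwn, one_pow, mul_one]
  have hsumT : Summable T := by
    have h1 : Summable (fun n => co n * z ^ n) := (J4 z).of_norm
    have h2 := h1.mul_left (u ^ ((K + 3 + 1).choose 2))
    exact h2.congr fun n => (hT n)
  have htot : u ^ ((K + 3 + 1).choose 2) * f z = ∑' n, T n := by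
    rw [f, ← tsum_mul_left]
    exact tsum_congr hT
  have hsplit : ∑' n, T n = (∑ n ∈ Finset.range K, T n + ∑ i ∈ Finset.range 8, T (K + i)) +
      ∑' i, T (i + (K + 8)) := by
    rw [← hsumT.sum_add_tsum_nat_add (K + 8), Finset.sum_range_add]
  have hcore : ∑ i ∈ Finset.range 8, T (K + i) = w ^ K * core w := by
    have e0 : ee K (K + 0) = 6 := by
      unfold ee; rw [if_pos (by omega), show K + 3 - (K + 0) + 1 = 4 by omega]; rfl
    have e1 : ee K (K + 1) = 3 := by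
      unfold ee; rw [if_pos (by omega), show K + 3 - (K + 1) + 1 = 3 by omega]; rfl
    have e2 : ee K (K + 2) = 1 := by
      unfold ee; rw [if_pos (by omega), show K + 3 - (K + 2) + 1 = 2 by omega]; rfl
    have e3 : ee K (K + 3) = 0 := by
      unfold ee; rw [if_pos (by omega), show K + 3 - (K + 3) + 1 = 1 by omega]; rfl
    have e4 : ee K (K + 4) = 0 := by
      unfold ee; rw [if_neg (by omega), show K + 4 - (K + 3) = 1 by omega]; rfl
    have e5 : ee K (K + 5) = 1 := by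
      unfold ee; rw [if_neg (by omega), show K + 5 - (K + 3) = 2 by omega]; rfl
    have e6 : ee K (K + 6) = 3 := by
      unfold ee; rw [if_neg (by omega), show K + 6 - (K + 3) = 3 by omega]; rfl
    have e7 : ee K (K + 7) = 6 := by
      unfold ee; rw [if_neg (by omega), show K + 7 - (K + 3) = 4 by omega]; rfl
    simp only [Finset.sum_range_succ, Finset.sum_range_zero, hTdef, e0, e1, e2, e3, e4, e5, e6, e7,
      core, pow_add]
    ring
  have hleft : ‖∑ n ∈ Finset.range K, T n‖ ≤ 28 / 10 ^ 7 := by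
    rw [← Finset.sum_range_reflect]
    refine (norm_sum_le _ _).trans ?_
    have h1 : ∀ i ∈ Finset.range K, ‖T (K - 1 - i)‖ ≤ ‖u‖ ^ 10 * (1 / 100) ^ i := by
      intro i hi
      have hi' := Finset.mem_range.1 hi
      rw [hTn]
      have : ee K (K - 1 - i) = (5 + i).choose 2 := by
        unfold ee
        rw [if_pos (by omega), show K + 3 - (K - 1 - i) + 1 = 5 + i by omega]
      rw [this]
      exact tail_bd i
    refine (Finset.sum_le_sum h1).trans (le_trans ?_ tail_num)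
    exact sum_le_hasSum _ (fun i _ => by positivity) tail_hasSum
  have hright : ‖∑' i, T (i + (K + 8))‖ ≤ 28 / 10 ^ 7 := by
    refine (tsum_of_norm_bounded tail_hasSum fun i => ?_).trans tail_num
    rw [hTn]
    have : ee K (i + (K + 8)) = (5 + i).choose 2 := by
      unfold ee
      rw [if_neg (by omega), show i + (K + 8) - (K + 3) = 5 + i by omega]
    rw [this]
    exact tail_bd i
  have hcn : ‖∑ i ∈ Finset.range 8, T (K + i)‖ ≤ 170939 / 100000 := by
    rw [hcore, norm_mul, norm_pow, hwn, one_pow, one_mul]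
    exact J2 w hwn
  have hfin : ‖u‖ ^ ((K + 3 + 1).choose 2) * ‖f z‖ ≤ 200 / 117 := by
    rw [← norm_pow, ← norm_mul, htot, hsplit]
    have h1 := norm_add_le (∑ n ∈ Finset.range K, T n + ∑ i ∈ Finset.range 8, T (K + i))
      (∑' i, T (i + (K + 8)))
    have h2 := norm_add_le (∑ n ∈ Finset.range K, T n) (∑ i ∈ Finset.range 8, T (K + i))
    have h3 : (28 / 10 ^ 7 + 170939 / 100000 + 28 / 10 ^ 7 : ℝ) ≤ 200 / 117 := by norm_num
    linarith
  have hp : 0 < ‖u‖ ^ ((K + 3 + 1).choose 2) := pow_pos hr0 _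
  rw [inv_pow, ← div_eq_mul_inv, le_div_iff₀ hp, mul_comm]
  exact hfin

theorem J7 (k : ℕ) (hk : 3 ≤ k) (z : ℂ) (h1 : ‖u‖⁻¹ ^ k ≤ ‖z‖) (h2 : ‖z‖ ≤ ‖u‖⁻¹ ^ (k + 1)) :
    ‖f z‖ ≤ 200 / 117 * (‖co (k + 1)‖ * ‖z‖ ^ (k + 1)) := by
  have hq0 : 0 < ‖u‖ := by
    by_contra h
    have h0 : ‖u‖ = 0 := le_antisymm (not_lt.mp h) (norm_nonneg _)
    have := J3
    rw [h0] at this
    norm_num at this
  have hq1 : ‖u‖ < 1 := by
    by_contra h
    push Not at h
    have h3 := J3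
    nlinarith
  obtain ⟨q, hq⟩ : ∃ q, q = ‖u‖ := ⟨_, rfl⟩
  rw [← hq] at hq0 hq1 h1 h2
  have hR1 : 1 < q⁻¹ := (one_lt_inv₀ hq0).mpr hq1
  obtain ⟨R, hR⟩ : ∃ R, R = q⁻¹ := ⟨_, rfl⟩
  rw [← hR] at hR1 h1 h2
  have hR0 : 0 < R := by linarith
  have hqR : q * R = 1 := by
    rw [hR]
    exact mul_inv_cancel₀ hq0.ne'
  have ha : 2 * (k + 1).choose 2 = k * (k + 1) := by
    have h := Nat.cast_choose_two ℚ (k + 1)
    have h' : (2 * ((k + 1).choose 2 : ℕ) : ℚ) = k * (k + 1) := by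
      rw [h]
      push_cast
      ring
    exact_mod_cast h'
  have hb : 2 * (k + 2).choose 2 = (k + 1) * (k + 2) := by
    have h := Nat.cast_choose_two ℚ (k + 2)
    have h' : (2 * ((k + 2).choose 2 : ℕ) : ℚ) = (k + 1) * (k + 2) := by
      rw [h]
      push_cast
      ring
    exact_mod_cast h'
  obtain ⟨a, haa⟩ : ∃ a, a = (k + 1).choose 2 := ⟨_, rfl⟩
  obtain ⟨b, hbb⟩ : ∃ b, b = (k + 2).choose 2 := ⟨_, rfl⟩
  rw [← haa] at ha
  rw [← hbb] at hb
  have hco : ‖co (k + 1)‖ = q ^ a := by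
    unfold co
    rw [norm_pow, ← hq, haa]
  rw [hco]
  -- bound on the circles
  have hc1 : ∀ w : ℂ, ‖w‖ = R ^ k → ‖f w‖ ≤ 200 / 117 * (q ^ a * ‖w‖ ^ (k + 1)) := by
    intro w hw
    have h := J6 k hk w (by rw [hw, hR, hq])
    rw [← hq, ← hR, ← haa] at h
    refine le_trans h (le_of_eq ?_)
    rw [hw, ← pow_mul, ← ha, two_mul, pow_add]
    have e : q ^ a * R ^ a = 1 := by rw [← mul_pow, hqR, one_pow]
    linear_combination (-(200 / 117) * R ^ a) * e
  have hc2 : ∀ w : ℂ, ‖w‖ = R ^ (k + 1) → ‖f w‖ ≤ 200 / 117 * (q ^ a * ‖w‖ ^ (k + 1)) := by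
    intro w hw
    have h := J6 (k + 1) (by omega) w (by rw [hw, hR, hq])
    rw [← hq, ← hR, ← hbb] at h
    refine le_trans h (le_of_eq ?_)
    have hab : (k + 1) * (k + 1) = a + b := by nlinarith
    rw [hw, ← pow_mul, hab, pow_add]
    have e : q ^ a * R ^ a = 1 := by rw [← mul_pow, hqR, one_pow]
    linear_combination (-(200 / 117) * R ^ b) * e
  -- the annulus
  obtain ⟨U, hU⟩ : ∃ U : Set ℂ, U = {w : ℂ | R ^ k < ‖w‖ ∧ ‖w‖ < R ^ (k + 1)} := ⟨_, rfl⟩
  have hUo : IsOpen U := by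
    rw [hU]
    exact (isOpen_lt continuous_const continuous_norm).inter
      (isOpen_lt continuous_norm continuous_const)
  have hUcl : ∀ w ∈ closure U, R ^ k ≤ ‖w‖ ∧ ‖w‖ ≤ R ^ (k + 1) := by
    have hcl : IsClosed {w : ℂ | R ^ k ≤ ‖w‖ ∧ ‖w‖ ≤ R ^ (k + 1)} :=
      (isClosed_le continuous_const continuous_norm).inter
        (isClosed_le continuous_norm continuous_const)
    intro w hw
    have hsub : U ⊆ {w : ℂ | R ^ k ≤ ‖w‖ ∧ ‖w‖ ≤ R ^ (k + 1)} := by
      rw [hU]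
      intro w hw
      exact ⟨hw.1.le, hw.2.le⟩
    exact closure_minimal hsub hcl hw
  have hne : ∀ w : ℂ, R ^ k ≤ ‖w‖ → w ≠ 0 := by
    intro w hw h0
    rw [h0, norm_zero] at hw
    have := pow_pos hR0 k
    linarith
  have hbd : Bornology.IsBounded U := by
    apply Metric.isBounded_ball (x := (0:ℂ)) (r := R ^ (k + 1)) |>.subset
    intro w hw
    rw [hU] at hw
    rw [mem_ball_zero_iff]
    exact hw.2
  have hdiff : DiffContOnCl ℂ (fun w => f w / w ^ (k + 1)) U := by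
    apply DifferentiableOn.diffContOnCl
    intro w hw
    have hw0 := hne w (hUcl w hw).1
    apply DifferentiableAt.differentiableWithinAt
    apply DifferentiableAt.div
    · exact J5 w
    · fun_prop
    · exact pow_ne_zero _ hw0
  have hbound : ∀ w : ℂ, w ≠ 0 → ‖f w‖ ≤ 200 / 117 * (q ^ a * ‖w‖ ^ (k + 1)) →
      ‖f w / w ^ (k + 1)‖ ≤ 200 / 117 * q ^ a := by
    intro w hw h
    rw [norm_div, norm_pow, div_le_iff₀ (pow_pos (norm_pos_iff.mpr hw) _)]
    linarith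
  by_cases hz1 : ‖z‖ = R ^ k
  · exact hc1 z hz1
  by_cases hz2 : ‖z‖ = R ^ (k + 1)
  · exact hc2 z hz2
  have hzU : z ∈ U := by
    rw [hU]
    exact ⟨lt_of_le_of_ne h1 (Ne.symm hz1), lt_of_le_of_ne h2 hz2⟩
  have hmain := Complex.norm_le_of_forall_mem_frontier_norm_le (C := 200 / 117 * q ^ a) hbd hdiff
    (by
      intro w hw
      rw [hUo.frontier_eq] at hw
      have hw1 := hUcl w hw.1
      have hw0 := hne w hw1.1
      apply hbound w hw0
      by_cases hw2 : ‖w‖ = R ^ k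
      · exact hc1 w hw2
      by_cases hw3 : ‖w‖ = R ^ (k + 1)
      · exact hc2 w hw3
      exfalso
      apply hw.2
      rw [hU]
      exact ⟨lt_of_le_of_ne hw1.1 (Ne.symm hw2), lt_of_le_of_ne hw1.2 hw3⟩)
    (subset_closure hzU)
  have hz0 := hne z h1
  have hmain' : ‖f z / z ^ (k + 1)‖ ≤ 200 / 117 * q ^ a := hmain
  rw [norm_div, norm_pow, div_le_iff₀ (pow_pos (norm_pos_iff.mpr hz0) _)] at hmain'
  linarith

theorem J8 : ∀ᶠ r : ℝ in atTop, maxModulus co r ≤ 200 / 117 * maxTerm co r := by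
  have hu : ‖u‖ < 1 := by
    have := J3
    nlinarith [norm_nonneg u]
  have hu0 : 0 < ‖u‖ := by
    have := J3
    rcases (norm_nonneg u).lt_or_eq with h | h
    · exact h
    · rw [← h] at this
      norm_num at this
  have hy : 1 < ‖u‖⁻¹ := (one_lt_inv₀ hu0).2 hu
  filter_upwards [eventually_ge_atTop (‖u‖⁻¹ ^ 3)] with r hr
  have hr1 : 1 ≤ r := le_trans (one_le_pow₀ hy.le) hr
  have hr0 : 0 < r := by linarith
  obtain ⟨k, hk1, hk2⟩ := exists_nat_pow_near hr1 hy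
  have hk : 3 ≤ k := by
    have h1 : ‖u‖⁻¹ ^ 3 < ‖u‖⁻¹ ^ (k + 1) := lt_of_le_of_lt hr hk2
    have h2 := (pow_lt_pow_iff_right₀ hy).1 h1
    omega
  have hbdd : BddAbove (Set.range fun n : ℕ => ‖co n‖ * r ^ n) := by
    have hs := J4 (r : ℂ)
    have ht := hs.tendsto_atTop_zero
    obtain ⟨M, hM⟩ := ht.bddAbove_range
    refine ⟨M, ?_⟩
    rintro _ ⟨n, rfl⟩
    have h1 := hM ⟨n, rfl⟩
    simp only [norm_mul, norm_pow, Complex.norm_real, Real.norm_eq_abs, abs_of_pos hr0] at h1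
    exact h1
  have hmax : ‖co (k + 1)‖ * r ^ (k + 1) ≤ maxTerm co r := le_ciSup hbdd (k + 1)
  unfold maxModulus
  apply csSup_le
  · refine ⟨_, (r : ℂ), ?_, rfl⟩
    rw [mem_sphere_zero_iff_norm, Complex.norm_real, Real.norm_eq_abs, abs_of_pos hr0]
  · rintro _ ⟨z, hz, rfl⟩
    rw [mem_sphere_zero_iff_norm] at hz
    have h1 := J7 k hk z (by rw [hz]; exact hk1) (by rw [hz]; exact hk2.le)
    rw [hz] at h1
    show ‖f z‖ ≤ _
    refine h1.trans ?_
    exact mul_le_mul_of_nonneg_left hmax (by norm_num)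

theorem J9 (r : ℝ) (hr : 0 < r) : 1 ≤ maxModulus co r := by
  have hf0 : f 0 = 1 := by
    unfold f
    rw [tsum_eq_single 0]
    · simp [co]
    · intro n hn
      simp [hn]
  have hbdd : BddAbove ((fun z : ℂ => ‖f z‖) '' Metric.sphere (0 : ℂ) r) :=
    ((isCompact_sphere (0 : ℂ) r).image (J5.continuous.norm)).bddAbove
  have hle : ∀ z ∈ frontier (Metric.ball (0 : ℂ) r), ‖f z‖ ≤ maxModulus co r := by
    intro z hz
    rw [frontier_ball (0 : ℂ) hr.ne'] at hz
    exact le_csSup hbdd ⟨z, hz, rfl⟩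
  have h := Complex.norm_le_of_forall_mem_frontier_norm_le Metric.isBounded_ball
    (J5.diffContOnCl) hle (subset_closure (Metric.mem_ball_self hr))
  rw [hf0, norm_one] at h
  exact h

theorem J10_coeff (n : ℕ) : iteratedDeriv n f 0 = (n.factorial : ℂ) * co n := by
  have hp : HasFPowerSeriesOnBall f (FormalMultilinearSeries.ofScalars ℂ co) 0 1 := by
    refine ⟨?_, one_pos, ?_⟩
    · have h := (FormalMultilinearSeries.ofScalars ℂ co).le_radius_of_summable_norm (r := 1) (by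
        refine (J4 1).congr fun n => ?_
        rw [FormalMultilinearSeries.ofScalars_norm]
        simp)
      simpa using h
    · intro y _
      have h := (J4 y).of_norm.hasSum
      rw [zero_add]
      have he : (fun n => (FormalMultilinearSeries.ofScalars ℂ co) n (fun _ => y))
          = fun n => co n * y ^ n := by
        funext n
        rw [FormalMultilinearSeries.ofScalars_apply_eq, smul_eq_mul]
      rw [he]
      exact h
  have h2 := hp.factorial_smul 1 n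
  rw [iteratedDeriv_eq_iteratedFDeriv, ← h2, FormalMultilinearSeries.ofScalars_apply_eq]
  simp

theorem J10 (r : ℝ) (hr : 0 < r) : maxTerm co r ≤ maxModulus co r := by
  unfold maxTerm
  apply ciSup_le
  intro n
  have hbdd : BddAbove ((fun z : ℂ => ‖∑' n : ℕ, co n * z ^ n‖) '' Metric.sphere (0 : ℂ) r) := by
    have hc : Continuous (fun z : ℂ => ‖f z‖) := J5.continuous.norm
    exact ((isCompact_sphere (0 : ℂ) r).image hc).bddAbove
  have hle : ∀ z ∈ Metric.sphere (0 : ℂ) r, ‖f z‖ ≤ maxModulus co r := by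
    intro z hz
    exact le_csSup hbdd ⟨z, hz, rfl⟩
  have h := Complex.norm_iteratedDeriv_le_of_forall_mem_sphere_norm_le n hr
    (J5.diffContOnCl (s := Metric.ball (0 : ℂ) r)) hle
  rw [J10_coeff, norm_mul, Complex.norm_natCast] at h
  have hf : (0 : ℝ) < n.factorial := by exact_mod_cast n.factorial_pos
  rw [mul_div_assoc] at h
  have h3 := le_of_mul_le_mul_left h hf
  rwa [le_div_iff₀ (pow_pos hr n)] at h3

theorem co_ne (n : ℕ) : co n ≠ 0 := by
  unfold co
  apply pow_ne_zero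
  intro h
  have := J3
  rw [h] at this
  norm_num at this

theorem result : ∃ a : ℕ → ℂ, IsTranscendentalEntire a ∧
    (117 / 200 : ℝ) ≤ liminf (fun r : ℝ => maxTerm a r / maxModulus a r) atTop := by
  refine ⟨co, ⟨fun z => (J4 z).of_norm, fun N => ⟨N, le_rfl, co_ne N⟩⟩, ?_⟩
  have hb : ∀ᶠ r : ℝ in atTop, maxTerm co r / maxModulus co r ≤ 1 := by
    filter_upwards [eventually_gt_atTop (0 : ℝ)] with r hr
    have h1 := J9 r hr
    rw [div_le_one (by linarith)]
    exact J10 r hr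
  apply le_liminf_of_le
  · exact (IsBoundedUnder.isCoboundedUnder_ge ⟨1, by simpa using hb⟩)
  · filter_upwards [eventually_gt_atTop (0 : ℝ), J8] with r hr h8
    have h1 := J9 r hr
    rw [le_div_iff₀ (by linarith)]
    linarith

end Pool.Agent.Results.MP_a70c31_an.ThetaLowerBound
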